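import Pool.Agent.helper81.CX.Spec2

/-!
# Row cx:ODQ (MP_447e26_gt)

The odd part of the quadratic form, from the Cauchy-Schwarz inequality and the semigroup law.
-/

set_option autoImplicit false

open MeasureTheory Set Filter Topology
open scoped ENNReal
open Pool.Agent.helper81.CW

namespace Pool.Agent.CX

lemma ODQ_CS (hG1 : G1_stmt) (hG4 : G4_stmt) {n : ℕ} (hn : 0 < n) (g : E n → E n) (hg : BM g) :
    (∫ x, inner ℝ (g x) x ∂(gm n)) ^ 2 ≤ (n : ℝ) * ∫ x, ‖g x‖ ^ 2 ∂(gm n) := by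
  haveI : IsProbabilityMeasure (gm n) := (hG1 n).1
  have hn0 : (0 : ℝ) < n := by exact_mod_cast hn
  have h1 : ∫ x : E n, ‖x‖ ^ 2 ∂(gm n) = n := by
    have := hG4 n (fun _ => 1) 1 measurable_const (fun _ => by norm_num) (fun _ _ _ => rfl)
    simpa using this
  have i1 : Integrable (fun x : E n => ‖x‖ ^ 2) (gm n) := by
    by_contra h
    rw [integral_undef h] at h1
    linarith
  have i2 : Integrable (fun x => ‖g x‖ ^ 2) (gm n) := by
    refine Integrable.of_bound (hg.1.norm.pow_const 2).aestronglyMeasurable 4 (Eventually.of_forall fun x => ?_)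
    rw [Real.norm_eq_abs, abs_of_nonneg (by positivity)]
    nlinarith [hg.2 x, norm_nonneg (g x)]
  have i3 : Integrable (fun x => inner ℝ (g x) x) (gm n) := by
    have i12 : Integrable (fun x : E n => ‖g x‖ ^ 2 + ‖x‖ ^ 2) (gm n) := i2.add i1
    have hm : AEStronglyMeasurable (fun x : E n => inner ℝ (g x) x) (gm n) :=
      (hg.1.inner measurable_id).aestronglyMeasurable
    refine Integrable.mono' i12 hm (Eventually.of_forall fun x => ?_)
    rw [Real.norm_eq_abs]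
    have := abs_real_inner_le_norm (g x) x
    nlinarith [sq_nonneg (‖g x‖ - ‖x‖), norm_nonneg (g x), norm_nonneg x]
  set I := ∫ x, inner ℝ (g x) x ∂(gm n) with hI
  have h2 : 0 ≤ ∫ x, ‖g x - (I / n) • x‖ ^ 2 ∂(gm n) := integral_nonneg fun x => by positivity
  have h3 : ∀ x : E n, ‖g x - (I / n) • x‖ ^ 2 =
      ‖g x‖ ^ 2 - 2 * (I / n) * inner ℝ (g x) x + (I / n) ^ 2 * ‖x‖ ^ 2 := by
    intro x
    rw [norm_sub_sq_real, inner_smul_right, norm_smul, mul_pow, Real.norm_eq_abs, sq_abs]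
    ring
  simp_rw [h3] at h2
  have j1 : Integrable (fun x : E n => 2 * (I / n) * inner ℝ (g x) x) (gm n) := i3.const_mul _
  have j2 : Integrable (fun x : E n => (I / n) ^ 2 * ‖x‖ ^ 2) (gm n) := i1.const_mul _
  have j3 : Integrable (fun x : E n => ‖g x‖ ^ 2 - 2 * (I / n) * inner ℝ (g x) x) (gm n) := i2.sub j1
  rw [integral_add j3 j2, integral_sub i2 j1, integral_const_mul, integral_const_mul, h1, ← hI] at h2
  have h4 : (∫ x, ‖g x‖ ^ 2 ∂(gm n)) - 2 * (I / n) * I + (I / n) ^ 2 * n =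
      (∫ x, ‖g x‖ ^ 2 ∂(gm n)) - I ^ 2 / n := by
    field_simp
    ring
  rw [h4] at h2
  have h5 : I ^ 2 / n ≤ ∫ x, ‖g x‖ ^ 2 ∂(gm n) := by linarith
  rw [div_le_iff₀ hn0] at h5
  linarith

theorem ODQ (hG1 : G1_stmt) (hG4 : G4_stmt) (hCRB : CRB_stmt) (hCRS : CRS_stmt) (hCRX : CRX_stmt) : ODQ_stmt := by
  intro n f t hf ht0 ht1
  haveI : IsProbabilityMeasure (gm n) := (hG1 n).1
  rcases Nat.eq_zero_or_pos n with hn | hn
  · subst hn
    have h0 : ∀ x : E 0, inner ℝ (f x) x = (0 : ℝ) := fun x => by rw [Subsingleton.elim x 0, inner_zero_right]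
    simp only [h0]
    simp
  · have hs0 := Real.sqrt_nonneg t
    have hs1 : Real.sqrt t ≤ 1 := by rw [Real.sqrt_le_one]; exact ht1
    have hab : |Real.sqrt t| ≤ 1 := by rw [abs_of_nonneg hs0]; exact hs1
    have h1 := ODQ_CS hG1 hG4 hn f hf
    have h2 := ODQ_CS hG1 hG4 hn (PP f (Real.sqrt t)) (hCRB n f f _ hf hf hab).1
    have h3 := (hCRX n f _ hf hab).2
    have h4 := hCRS n f f _ _ hf hf hs0 hs1 hs0 hs1
    rw [Real.mul_self_sqrt ht0] at h4
    have h5 : ∫ x, inner ℝ (PP f (Real.sqrt t) x) (PP f (Real.sqrt t) x) ∂(gm n) =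
        ∫ x, ‖PP f (Real.sqrt t) x‖ ^ 2 ∂(gm n) :=
      integral_congr_ae (Eventually.of_forall fun x => real_inner_self_eq_norm_sq _)
    rw [h3, mul_pow, Real.sq_sqrt ht0, ← h5, ← h4] at h2
    nlinarith

end Pool.Agent.CX
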