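import Pool.Agent.helper81.CX.Spec2
import Pool.Agent.helper12.CL.FAR

set_option autoImplicit false

open MeasureTheory Set Filter Topology
open scoped ENNReal
open Pool.Agent.helper81.CW

namespace Pool.Agent.CX

theorem STA_un_smul {n : ℕ} (x : E n) (t : ℝ) (ht : 0 < t) : un (t • x) = un x := by
  unfold un
  rw [norm_smul, Real.norm_eq_abs, abs_of_pos ht, smul_smul, mul_inv, mul_assoc, mul_comm (‖x‖⁻¹) t, ← mul_assoc,
    inv_mul_cancel₀ ht.ne', one_mul]

theorem STA_un_neg {n : ℕ} (x : E n) : un (-x) = -un x := by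
  unfold un
  rw [norm_neg, smul_neg]

theorem STA_norm_un {n : ℕ} (x : E n) : ‖un x‖ ≤ 1 := by
  unfold un
  rw [norm_smul, norm_inv, norm_norm]
  by_cases h : ‖x‖ = 0
  · rw [h, mul_zero]
    exact zero_le_one
  · rw [inv_mul_cancel₀ h]

theorem STA_meas_un {n : ℕ} : Measurable (un : E n → E n) := by
  unfold un
  exact measurable_norm.inv.smul measurable_id

theorem STA_null {n : ℕ} (hn : 1 ≤ n) : gm n {(0 : E n)} = 0 := by
  have hnt : Nontrivial (E n) := by
    refine ⟨0, EuclideanSpace.single ⟨0, hn⟩ 1, fun h => ?_⟩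
    have h1 := congrArg (fun v : E n => v ⟨0, hn⟩) h
    simp at h1
  have h0 : (volume : Measure (E n)) {(0 : E n)} = 0 := measure_singleton _
  unfold gm
  exact withDensity_absolutelyContinuous _ _ h0

/-- Chebyshev's inequality -/
theorem STA_cheb {n : ℕ} (hprob : IsProbabilityMeasure (gm n)) (φ : E n → ℝ) (hm : Measurable φ) (h0 : ∀ x, 0 ≤ φ x)
    (h4 : ∀ x, φ x ≤ 4) (η : ℝ) (hη : 0 < η) (hsq : ∫ x, φ x ^ 2 ∂(gm n) ≤ 1 - η / 2)
    (hvar : n * ∫ x, (φ x - ∫ z, φ z ∂(gm n)) ^ 2 ∂(gm n) ≤ 160) (hn : 5120 / η ^ 3 ≤ n) (hn1 : 1 ≤ n) :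
    gm n {x | 1 < φ x} ≤ ENNReal.ofReal (η / 2) := by
  set m : ℝ := ∫ z, φ z ∂(gm n) with hmdef
  have hi1 : Integrable φ (gm n) := by
    refine Integrable.of_bound hm.aestronglyMeasurable 4 (Eventually.of_forall fun x => ?_)
    rw [Real.norm_eq_abs, abs_of_nonneg (h0 x)]
    exact h4 x
  have hi2 : Integrable (fun x => φ x ^ 2) (gm n) := by
    refine Integrable.of_bound (hm.pow_const 2).aestronglyMeasurable 16 (Eventually.of_forall fun x => ?_)
    rw [Real.norm_eq_abs, abs_of_nonneg (sq_nonneg _)]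
    nlinarith [h0 x, h4 x]
  have hi3 : Integrable (fun x => (φ x - m) ^ 2) (gm n) := by
    have e : (fun x => (φ x - m) ^ 2) = fun x => φ x ^ 2 - 2 * m * φ x + m ^ 2 := by
      funext x
      ring
    rw [e]
    exact (hi2.sub (hi1.const_mul (2 * m))).add (integrable_const _)
  have hnonneg : 0 ≤ ∫ x, (φ x - m) ^ 2 ∂(gm n) := integral_nonneg fun x => sq_nonneg _
  have hexp : ∫ x, (φ x - m) ^ 2 ∂(gm n) = ∫ x, φ x ^ 2 ∂(gm n) - m ^ 2 := by
    have e : (fun x => (φ x - m) ^ 2) = fun x => (φ x ^ 2 - 2 * m * φ x) + m ^ 2 := by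
      funext x
      ring
    have hA : Integrable (fun x => φ x ^ 2 - 2 * m * φ x) (gm n) := hi2.sub (hi1.const_mul (2 * m))
    rw [e, integral_add hA (integrable_const _),
      integral_sub hi2 (hi1.const_mul (2 * m)), integral_const_mul, integral_const, ← hmdef]
    simp
    ring
  have hm2 : m ^ 2 ≤ 1 - η / 2 := by linarith
  have hη2 : η ≤ 2 := by nlinarith [sq_nonneg m]
  have hm1 : m ≤ 1 - η / 4 := by
    by_contra hcon
    have h5 : 1 - η / 4 < m := not_le.1 hcon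
    nlinarith
  have hsub : {x | 1 < φ x} ⊆ {x | (η / 4) ^ 2 ≤ (φ x - m) ^ 2} := by
    intro x hx
    have hx1 : 1 < φ x := hx
    show (η / 4) ^ 2 ≤ (φ x - m) ^ 2
    exact pow_le_pow_left₀ (by positivity) (by linarith) 2
  have hch := mul_meas_ge_le_integral_of_nonneg (μ := gm n) (f := fun x => (φ x - m) ^ 2)
    (Eventually.of_forall fun x => sq_nonneg _) hi3 ((η / 4) ^ 2)
  have hnR : (0 : ℝ) < n := by exact_mod_cast hn1
  have hreal : (gm n).real {x | (η / 4) ^ 2 ≤ (φ x - m) ^ 2} ≤ η / 2 := by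
    have h6 : (n : ℝ) * ((η / 4) ^ 2 * (gm n).real {x | (η / 4) ^ 2 ≤ (φ x - m) ^ 2}) ≤ 160 :=
      (mul_le_mul_of_nonneg_left hch hnR.le).trans hvar
    rw [div_le_iff₀ (by positivity)] at hn
    have h7 : (160 : ℝ) ≤ (n : ℝ) * ((η / 4) ^ 2 * (η / 2)) := by
      have : (n : ℝ) * ((η / 4) ^ 2 * (η / 2)) = n * η ^ 3 / 32 := by ring
      rw [this]
      linarith
    have h8 : 0 < (n : ℝ) * (η / 4) ^ 2 := by positivity
    have h9 : (n : ℝ) * (η / 4) ^ 2 * (gm n).real {x | (η / 4) ^ 2 ≤ (φ x - m) ^ 2} ≤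
        (n : ℝ) * (η / 4) ^ 2 * (η / 2) := by
      rw [mul_assoc, mul_assoc]
      exact h6.trans h7
    exact le_of_mul_le_mul_left h9 h8
  refine (measure_mono hsub).trans ?_
  rw [← ENNReal.ofReal_toReal (measure_ne_top (gm n) {x | (η / 4) ^ 2 ≤ (φ x - m) ^ 2})]
  exact ENNReal.ofReal_le_ofReal hreal

theorem STA (hG1 : G1_stmt) (hJ2 : J2_stmt) (hLFC : LFC_stmt) (hFRE : FRE_stmt) : STA_stmt := by
  intro η hη
  have hlim : ∀ᶠ n : ℕ in atTop, 5120 / η ^ 3 ≤ (n : ℝ) := tendsto_natCast_atTop_atTop.eventually_ge_atTop _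
  filter_upwards [hFRE η hη, hlim, eventually_ge_atTop 1] with n hF hnη hn1
  intro C M W a mu p t c g hC hC2 hM hMX ha0 ha1 hmu0 hmu1 hp ht0 ht1 hc0 hc1 hW hWe hWh hWi hWl hf hR
  have hsq := hF C M W a mu p t c g hC hC2 hM hMX ha0 ha1 hmu0 hmu1 hp ht0 ht1 hc0 hc1 hW hWe hWh hWi hf hR
  obtain ⟨hprob, hsym⟩ := hG1 n
  have hCne := hC.1
  have hCc := hC.2.1
  obtain ⟨-, hcomp, -⟩ := hJ2 n C 1 hC
  set φ : E n → ℝ := fun x => Pool.Agent.CL.far C (a • un x + W x) with hφ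
  have hfar := Pool.Agent.CL.FAR
  have hfarc : Continuous (Pool.Agent.CL.far C) := by
    have : LipschitzWith 1 (Pool.Agent.CL.far C) := by
      refine LipschitzWith.of_dist_le_mul fun x y => ?_
      rw [Real.dist_eq, dist_eq_norm, NNReal.coe_one, one_mul, abs_le]
      have h1 := Pool.Agent.CL.FAR_lip hCc hCne x y
      have h2 := Pool.Agent.CL.FAR_lip hCc hCne y x
      rw [norm_sub_rev] at h2
      constructor <;> linarith
    exact this.continuous
  have hφm : Measurable φ := hfarc.measurable.comp ((STA_meas_un.const_smul a).add hW.1)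
  have hcle : ∀ v ∈ C, ‖v‖ ≤ 1 := by
    intro v hv
    have := hC2 v hv
    nlinarith [norm_nonneg v]
  have hφ0 : ∀ x, 0 ≤ φ x := by
    intro x
    obtain ⟨v, _, h⟩ := Pool.Agent.CL.FAR_att hCc hCne (a • un x + W x)
    show 0 ≤ Pool.Agent.CL.far C (a • un x + W x)
    rw [← h]
    exact norm_nonneg _
  have hφ4 : ∀ x, φ x ≤ 4 := by
    intro x
    obtain ⟨v, hv, h⟩ := Pool.Agent.CL.FAR_att hCc hCne (a • un x + W x)
    show Pool.Agent.CL.far C (a • un x + W x) ≤ 4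
    rw [← h]
    have h1 : ‖a • un x‖ ≤ 1 := by
      rw [norm_smul, Real.norm_of_nonneg ha0]
      calc a * ‖un x‖ ≤ 1 * 1 := mul_le_mul ha1 (STA_norm_un x) (norm_nonneg _) zero_le_one
        _ = 1 := one_mul 1
    calc ‖a • un x + W x - v‖ ≤ ‖a • un x‖ + ‖W x‖ + ‖v‖ :=
          (norm_sub_le _ _).trans (add_le_add (norm_add_le _ _) le_rfl)
      _ ≤ 1 + 2 + 1 := add_le_add (add_le_add h1 (hW.2 x)) (hcle v hv)
      _ = 4 := by norm_num
  have hφh : ∀ (x : E n) (r : ℝ), 0 < r → φ (r • x) = φ x := by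
    intro x r hr
    show Pool.Agent.CL.far C (a • un (r • x) + W (r • x)) = Pool.Agent.CL.far C (a • un x + W x)
    rw [STA_un_smul x r hr, hWh x r hr]
  have hφl : ∀ x y : E n, x ≠ 0 → y ≠ 0 → |φ x - φ y| ≤ 4 * ‖un x - un y‖ := by
    intro x y hx hy
    have key : ∀ x y : E n, x ≠ 0 → y ≠ 0 → φ x - φ y ≤ 4 * ‖un x - un y‖ := by
      intro x y hx hy
      refine (Pool.Agent.CL.FAR_lip hCc hCne _ _).trans ?_
      have e : a • un x + W x - (a • un y + W y) = a • (un x - un y) + (W x - W y) := by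
        rw [smul_sub]
        abel
      rw [e]
      refine (norm_add_le _ _).trans ?_
      rw [norm_smul, Real.norm_of_nonneg ha0]
      have h1 := hWl x y hx hy
      have h2 : a * ‖un x - un y‖ ≤ 1 * ‖un x - un y‖ := mul_le_mul_of_nonneg_right ha1 (norm_nonneg _)
      have h3 := norm_nonneg (un x - un y)
      linarith
    rw [abs_le]
    have h1 := key x y hx hy
    have h2 := key y x hy hx
    rw [norm_sub_rev] at h2
    constructor <;> linarith
  have hvar := hLFC n φ hφm hφ0 hφ4 hφh hφl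
  have hch := STA_cheb hprob φ hφm hφ0 hφ4 η hη hsq hvar hnη hn1
  have hms : MeasurableSet {x | 1 < φ x} := measurableSet_lt measurable_const hφm
  have hch2 : gm n {x | 1 < φ (-x)} ≤ ENNReal.ofReal (η / 2) := by
    have e : gm n {x | 1 < φ (-x)} = gm n {x | 1 < φ x} := by
      conv_rhs => rw [← hsym]
      rw [Measure.map_apply measurable_neg hms]
      rfl
    rw [e]
    exact hch
  have hin : ∀ v : E n, Pool.Agent.CL.far C v ≤ 1 → v ∈ C := by
    intro v hv
    refine hcomp v fun x hx => ?_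
    exact (Pool.Agent.CL.FAR_le hCc v x hx).trans hv
  have hsub : {x : E n | x ≠ 0 ∧ a • un x + W x ∈ C ∧ -(a • un x) + W x ∈ C}ᶜ ⊆
      {(0 : E n)} ∪ ({x | 1 < φ x} ∪ {x | 1 < φ (-x)}) := by
    intro x hx
    by_contra hcon
    apply hx
    have h1 : x ≠ 0 := fun h => hcon (Or.inl h)
    have h2 : φ x ≤ 1 := not_lt.1 fun h => hcon (Or.inr (Or.inl h))
    have h3 : φ (-x) ≤ 1 := not_lt.1 fun h => hcon (Or.inr (Or.inr h))
    refine ⟨h1, hin _ h2, ?_⟩
    have h4 : Pool.Agent.CL.far C (a • un (-x) + W (-x)) ≤ 1 := h3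
    rw [STA_un_neg, hWe, smul_neg] at h4
    exact hin _ h4
  refine (measure_mono hsub).trans ((measure_union_le _ _).trans ?_)
  rw [STA_null hn1, zero_add]
  refine (measure_union_le _ _).trans ((add_le_add hch hch2).trans ?_)
  rw [← ENNReal.ofReal_add (by positivity) (by positivity)]
  refine ENNReal.ofReal_le_ofReal ?_
  linarith

end Pool.Agent.CX
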