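import Pool.Agent.helper25.CX.Spec

set_option autoImplicit false

open MeasureTheory Set Filter Topology
open scoped ENNReal
open Pool.Agent.helper81.CW

namespace Pool.Agent.CX

theorem LIU_un_smul {n : ℕ} (x : E n) (t : ℝ) (ht : 0 < t) : un (t • x) = un x := by
  unfold un
  rw [norm_smul, Real.norm_eq_abs, abs_of_pos ht, smul_smul, mul_inv, mul_assoc, mul_comm (‖x‖⁻¹) t, ← mul_assoc,
    inv_mul_cancel₀ ht.ne', one_mul]

theorem LIU_norm_un {n : ℕ} (x : E n) : ‖un x‖ ≤ 1 := by
  unfold un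
  rw [norm_smul, norm_inv, norm_norm]
  by_cases h : ‖x‖ = 0
  · rw [h, mul_zero]
    exact zero_le_one
  · rw [inv_mul_cancel₀ h]

theorem LIU_meas {n : ℕ} : Measurable (un : E n → E n) := by
  unfold un
  exact measurable_norm.inv.smul measurable_id

theorem LIU_sq {n : ℕ} (x e : E n) : ‖x‖ ^ 2 * (inner ℝ (un x) e) ^ 2 = (inner ℝ x e) ^ 2 := by
  unfold un
  rw [real_inner_smul_left]
  by_cases h : ‖x‖ = 0
  · have hx : x = 0 := norm_eq_zero.1 h
    subst hx
    simp
  · field_simp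

theorem LIU (_hG1 : G1_stmt) (hG3 : G3_stmt) (hG4 : G4_stmt) : LIU_stmt := by
  intro n e he
  have h1 := hG4 n (fun x => (inner ℝ (un x) e) ^ 2) 1 ((LIU_meas.inner measurable_const).pow_const 2) (by
      intro x
      rw [abs_of_nonneg (sq_nonneg _)]
      have h2 : |inner ℝ (un x) e| ≤ 1 := by
        refine (abs_real_inner_le_norm _ _).trans ?_
        have h3 := LIU_norm_un x
        calc ‖un x‖ * ‖e‖ ≤ 1 * 1 := mul_le_mul h3 he (norm_nonneg _) zero_le_one
          _ = 1 := one_mul 1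
      rw [← sq_abs]
      exact pow_le_one₀ (abs_nonneg _) h2) (by
      intro x t ht
      show (inner ℝ (un (t • x)) e) ^ 2 = (inner ℝ (un x) e) ^ 2
      rw [LIU_un_smul x t ht])
  rw [← h1]
  have h4 : (fun x : E n => ‖x‖ ^ 2 * (inner ℝ (un x) e) ^ 2) = fun x => (inner ℝ x e) ^ 2 := by
    funext x
    exact LIU_sq x e
  rw [h4]
  have h5 := (hG3 n (fun x => inner ℝ x e) 1 zero_le_one (by
      intro x y
      rw [← inner_sub_left, one_mul]
      refine (abs_real_inner_le_norm _ _).trans ?_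
      calc ‖x - y‖ * ‖e‖ ≤ ‖x - y‖ * 1 := mul_le_mul_of_nonneg_left he (norm_nonneg _)
        _ = ‖x - y‖ := mul_one _) (by
      intro x
      exact inner_neg_left _ _)).2
  rw [one_pow] at h5
  exact h5

end Pool.Agent.CX
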